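import Mathlib
import Pool.Agent.Helper31K9.TDom

set_option autoImplicit false

/-!
# Q1: connected claw-free graphs with minimum degree at least two

For every connected claw-free graph `G` of order `n` with minimum degree at least two,
`FTD(G) ≥ 2 n / (n + 2) = 2 - 4 / (n + 2)`.

Idea.  In a claw-free graph with minimum degree at least two, `|N(U)| ≥ |U|` for every set `U` of
vertices.  If the inequality is strict for all nonempty proper subsets, there is for every vertex `v`
a partition of the vertex set in two classes such that every vertex other than `v` has a neighbour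
in both classes; adding one neighbour of `v` to both classes, and doing this for all `v`, one gets
`2 n` total dominating sets covering every vertex at most `n + 1` times.  If `|N(U)| = |U|` for some
nonempty proper subset `U`, then `V = J ∪ N(J)` for an independent set `J` of vertices of degree two,
and every vertex of `N(J)` has exactly two neighbours in `J`; the same argument works in the two
halves simultaneously.
-/

namespace Pool.Agent.Results.MP_7cc102_co.MinDegreeTwo

open R93.TotDom

universe u

/-- For every connected claw-free graph `G` of order `n` and minimum degree at least two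
`FTD(G) ≥ 2 - 4 / (n + 2)`; in particular, for every `ε > 0` there is `N` such that `FTD(G) ≥ 2 - ε`
for all such graphs with `n ≥ N`. -/
theorem result :
    (∀ (V : Type u) [Fintype V] (G : SimpleGraph V), G.Connected → ClawFree G →
      (∀ v, 2 ≤ (G.neighborSet v).ncard) → 2 - 4 / ((Fintype.card V : ℝ) + 2) ≤ FTD G) ∧
    ∀ ε : ℝ, 0 < ε → ∃ N : ℕ, ∀ (V : Type u) [Fintype V] (G : SimpleGraph V), G.Connected →
      ClawFree G → (∀ v, 2 ≤ (G.neighborSet v).ncard) → N ≤ Fintype.card V → 2 - ε ≤ FTD G := by
  classical
  have h1 : ∀ (V : Type u) [Fintype V] (G : SimpleGraph V), G.Connected → ClawFree G →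
      (∀ v, 2 ≤ (G.neighborSet v).ncard) → 2 - 4 / ((Fintype.card V : ℝ) + 2) ≤ FTD G := by
    intro V _ G hconn hc hd
    have hd' : ∀ v, 2 ≤ (nb G v).card := by
      intro v
      have h2 : G.neighborSet v = ((nb G v : Finset V) : Set V) := by
        ext w; simp
      have h3 := hd v
      rw [h2, Set.ncard_coe_finset] at h3
      exact h3
    have : Nonempty V := hconn.nonempty
    exact Pool.Agent.Helper31K9.TDom.main hconn hc hd'
  refine ⟨h1, fun ε hε => ?_⟩
  obtain ⟨N, hN⟩ := exists_nat_gt (4 / ε)
  refine ⟨N, fun V _ G hconn hc hd hNV => ?_⟩
  refine le_trans ?_ (h1 V G hconn hc hd)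
  have h2 : (4 : ℝ) / ε < (Fintype.card V : ℝ) + 2 := by
    have : (N : ℝ) ≤ Fintype.card V := by exact_mod_cast hNV
    linarith
  have h3 : 4 / ((Fintype.card V : ℝ) + 2) ≤ ε := by
    rw [div_le_iff₀ (by positivity)]
    rw [div_lt_iff₀ hε] at h2
    linarith
  linarith

end Pool.Agent.Results.MP_7cc102_co.MinDegreeTwo
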